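import Mathlib

/-!
# Irreducible representations with equal traces are isomorphic

Finite-dimensional representations over a field of characteristic zero of any monoid.
-/

set_option autoImplicit false

namespace Pool.Agent.W2helper58.TR

open Representation
open scoped MonoidAlgebra

variable {k G V W : Type*} [Field k] [CharZero k] [Monoid G] [AddCommGroup V] [Module k V]
  [FiniteDimensional k V] [AddCommGroup W] [Module k W] [FiniteDimensional k W]

omit [CharZero k] [FiniteDimensional k V] [FiniteDimensional k W] in
/-- equal traces on the monoid algebra -/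
lemma trace_alg (ρ : Representation k G V) (σ : Representation k G W)
    (h : ∀ g, LinearMap.trace k V (ρ g) = LinearMap.trace k W (σ g)) (r : k[G]) :
    LinearMap.trace k V (ρ.asAlgebraHom r) = LinearMap.trace k W (σ.asAlgebraHom r) := by
  induction r using MonoidAlgebra.induction_on with
  | of g =>
    rw [MonoidAlgebra.of_apply, asAlgebraHom_single_one, asAlgebraHom_single_one, h g]
  | add a b ha hb => rw [map_add, map_add, map_add, map_add, ha, hb]
  | smul c a ha => rw [map_smul, map_smul, map_smul, map_smul, ha]

/-- Irreducible representations with equal traces are isomorphic. -/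
theorem equiv_of_trace_eq (ρ : Representation k G V) (σ : Representation k G W)
    (hρ : ρ.IsIrreducible) (hσ : σ.IsIrreducible)
    (h : ∀ g, LinearMap.trace k V (ρ g) = LinearMap.trace k W (σ g)) :
    ∃ e : V ≃ₗ[k] W, ∀ g v, e (ρ g v) = σ g (e v) := by
  classical
  have : IsSimpleModule k[G] ρ.asModule := (irreducible_iff_isSimpleModule_asModule ρ).mp hρ
  have : IsSimpleModule k[G] σ.asModule := (irreducible_iff_isSimpleModule_asModule σ).mp hσ
  by_cases hex : ∃ f : ρ.asModule →ₗ[k[G]] σ.asModule, f ≠ 0
  · obtain ⟨f, hf⟩ := hex
    have hb : Function.Bijective f := (LinearMap.bijective_or_eq_zero f).resolve_right hf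
    let e₀ : ρ.asModule ≃ₗ[k[G]] σ.asModule := LinearEquiv.ofBijective f hb
    have hk : ∀ (c : k) (v : ρ.asModule), e₀ (c • v) = c • e₀ v := by
      intro c v
      rw [← algebraMap_smul k[G] c v, map_smul, algebraMap_smul]
    let e₁ : ρ.asModule ≃ₗ[k] σ.asModule :=
      { e₀.toAddEquiv with map_smul' := hk }
    refine ⟨ρ.asModuleEquiv.symm.trans (e₁.trans σ.asModuleEquiv), fun g v => ?_⟩
    change σ.asModuleEquiv (e₀ (ρ.asModuleEquiv.symm (ρ g v))) =
      σ g (σ.asModuleEquiv (e₀ (ρ.asModuleEquiv.symm v)))
    rw [asModuleEquiv_symm_map_rho, map_smul, asModuleEquiv_map_smul, MonoidAlgebra.of_apply,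
      asAlgebraHom_single_one]
  · exfalso
    push Not at hex
    have hex' : ∀ f : σ.asModule →ₗ[k[G]] ρ.asModule, f = 0 := by
      intro f
      by_contra hf
      have hb : Function.Bijective f := (LinearMap.bijective_or_eq_zero f).resolve_right hf
      have h1 := hex (LinearEquiv.ofBijective f hb).symm.toLinearMap
      have : Nontrivial ρ.asModule := IsSimpleModule.nontrivial k[G] ρ.asModule
      obtain ⟨v, hv⟩ := exists_ne (0 : ρ.asModule)
      have h2 : (LinearEquiv.ofBijective f hb).symm v = 0 := by
        have := congrArg (fun q => q v) h1
        simpa using this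
      exact hv (by simpa using h2)
    let M := ρ.asModule × σ.asModule
    let F : Module.End (Module.End k[G] M) M :=
      { toFun := fun m => (m.1, 0)
        map_add' := fun a b => by
          apply Prod.ext
          · rfl
          · exact (add_zero _).symm
        map_smul' := fun φ m => by
          have e1 : (LinearMap.snd k[G] ρ.asModule σ.asModule).comp
              (φ.comp (LinearMap.inl k[G] ρ.asModule σ.asModule)) = 0 := hex _
          have e2 : (LinearMap.fst k[G] ρ.asModule σ.asModule).comp
              (φ.comp (LinearMap.inr k[G] ρ.asModule σ.asModule)) = 0 := hex' _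
          have e3 : (φ (m.1, 0)).2 = 0 := congrArg (fun q => q m.1) e1
          have e4 : (φ (0, m.2)).1 = 0 := congrArg (fun q => q m.2) e2
          have e5 : φ m = φ (m.1, 0) + φ (0, m.2) := by
            rw [← map_add]
            congr 1
            apply Prod.ext
            · exact (add_zero _).symm
            · exact (zero_add _).symm
          change ((φ m).1, (0 : σ.asModule)) = φ (m.1, 0)
          apply Prod.ext
          · rw [e5]
            change (φ (m.1, 0)).1 + (φ (0, m.2)).1 = (φ (m.1, 0)).1
            rw [e4, add_zero]
          · exact e3.symm }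
    have hss : IsSemisimpleModule k[G] M := by
      have h1 := IsSemisimpleModule.sup
        (IsSemisimpleModule.range (LinearMap.inl k[G] ρ.asModule σ.asModule))
        (IsSemisimpleModule.range (LinearMap.inr k[G] ρ.asModule σ.asModule))
      rw [LinearMap.sup_range_inl_inr] at h1
      exact h1.congr Submodule.topEquiv.symm
    obtain ⟨s, hs⟩ := Module.Finite.fg_top (R := k) (M := M)
    obtain ⟨r, hr⟩ := jacobson_density F s
    have hall : ∀ m : M, ((m.1, 0) : M) = r • m := by
      intro m
      induction hs.ge (Submodule.mem_top (x := m)) using Submodule.span_induction with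
      | mem m hm => exact hr m hm
      | zero =>
        rw [smul_zero]
        rfl
      | add a b _ _ ha hb =>
        rw [smul_add, ← ha, ← hb]
        apply Prod.ext
        · rfl
        · exact (add_zero _).symm
      | smul c a _ ha =>
        rw [smul_comm, ← ha]
        apply Prod.ext
        · rfl
        · exact (smul_zero _).symm
    have h1 : ρ.asAlgebraHom r = LinearMap.id := by
      ext v
      have h2 := congrArg Prod.fst (hall (ρ.asModuleEquiv.symm v, 0))
      have h3 : ρ.asModuleEquiv.symm v = r • ρ.asModuleEquiv.symm v := h2
      have h4 := congrArg ρ.asModuleEquiv h3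
      rw [asModuleEquiv_map_smul, LinearEquiv.apply_symm_apply] at h4
      exact h4.symm
    have h2 : σ.asAlgebraHom r = 0 := by
      ext v
      have h2 := congrArg Prod.snd (hall (0, σ.asModuleEquiv.symm v))
      have h3 : (0 : σ.asModule) = r • σ.asModuleEquiv.symm v := h2
      have h4 := congrArg σ.asModuleEquiv h3
      rw [asModuleEquiv_map_smul, LinearEquiv.apply_symm_apply, map_zero] at h4
      exact h4.symm
    have h3 := trace_alg ρ σ h r
    rw [h1, h2, map_zero, LinearMap.trace_id] at h3
    have : Nontrivial ρ.asModule := IsSimpleModule.nontrivial k[G] ρ.asModule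
    have : Nontrivial V := ρ.asModuleEquiv.symm.toEquiv.nontrivial
    have h4 : 0 < Module.finrank k V := Module.finrank_pos
    exact absurd (by exact_mod_cast h3) h4.ne'

end Pool.Agent.W2helper58.TR
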